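import Pool.Agent.W670.ML.Defs

set_option autoImplicit false

/-!
# Project ML, part TOW: counting towers
-/

namespace Pool.Agent.W644.ML

open NumberField Pool.Agent.W670.ML

theorem isAlgClosure_rat : IsAlgClosure ℚ (AlgebraicClosure ℚ) := by
  have h : @IsAlgClosure ℚ (AlgebraicClosure ℚ) _ _ (@AlgebraicClosure.instAlgebra ℚ _ ℚ _ _) _ :=
    inferInstance
  have e : (DivisionRing.toRatAlgebra : Algebra ℚ (AlgebraicClosure ℚ)) =
      @AlgebraicClosure.instAlgebra ℚ _ ℚ _ _ := Subsingleton.elim _ _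
  rw [e]
  exact h

/-- Counting pairs by fibres. -/
theorem ncard_le_of_fibres {α β γ : Type*} (T : Set α) (f : α → β) (g : α → γ)
    (hinj : Set.InjOn (fun a => (f a, g a)) T) (hS : (f '' T).Finite) (C : ℕ)
    (F : β → Set γ) (hF : ∀ b ∈ f '' T, (F b).Finite ∧ (F b).ncard ≤ C)
    (hg : ∀ a ∈ T, g a ∈ F (f a)) :
    T.Finite ∧ T.ncard ≤ C * (f '' T).ncard := by
  classical
  set P : Set (β × γ) := ⋃ b ∈ f '' T, (fun c => (b, c)) '' F b with hP
  have hPfin : P.Finite := hS.biUnion (fun b hb => (hF b hb).1.image _)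
  have hsub : (fun a => (f a, g a)) '' T ⊆ P := by
    rintro _ ⟨a, ha, rfl⟩
    simp only [hP, Set.mem_iUnion, Set.mem_image]
    exact ⟨f a, ⟨a, ha, rfl⟩, g a, hg a ha, rfl⟩
  have himg : ((fun a => (f a, g a)) '' T).Finite := hPfin.subset hsub
  have hT : T.Finite := Set.Finite.of_finite_image himg hinj
  refine ⟨hT, ?_⟩
  have e1 : ((fun a => (f a, g a)) '' T).ncard = T.ncard := hinj.ncard_image
  rw [← e1]
  -- count with finsets
  have e2 : ((fun a => (f a, g a)) '' T).ncard = (himg.toFinset).card :=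
    Set.ncard_eq_toFinset_card _ himg
  have e3 : (f '' T).ncard = (hS.toFinset).card := Set.ncard_eq_toFinset_card _ hS
  rw [e2, e3, mul_comm]
  have hmaps : ∀ a ∈ himg.toFinset, Prod.fst a ∈ hS.toFinset := by
    intro a ha
    rw [Set.Finite.mem_toFinset] at ha ⊢
    obtain ⟨t, ht, rfl⟩ := ha
    exact ⟨t, ht, rfl⟩
  refine Finset.card_le_mul_card_image_of_maps_to hmaps C ?_ |>.trans ?_
  · intro b hb
    rw [Set.Finite.mem_toFinset] at hb
    obtain ⟨hfin, hcard⟩ := hF b hb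
    refine le_trans ?_ hcard
    rw [Set.ncard_eq_toFinset_card _ hfin]
    refine Finset.card_le_card_of_injOn Prod.snd ?_ ?_
    · intro x hx
      rw [Finset.mem_coe, Finset.mem_filter, Set.Finite.mem_toFinset] at hx
      obtain ⟨⟨t, ht, rfl⟩, hx2⟩ := hx
      rw [Finset.mem_coe, Set.Finite.mem_toFinset]
      simp only at hx2 ⊢
      rw [← hx2]
      exact hg t ht
    · intro x hx y hy hxy
      rw [Finset.mem_coe, Finset.mem_filter] at hx hy
      exact Prod.ext (hx.2.trans hy.2.symm) hxy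
  · rw [mul_comm]

theorem tow (h1 : S_IC) (h2 : S_MI) (_h3 : S_DI) (h4 : S_AB) (h5 : S_UB) (h6 : S_SF) :
    S_TOW := by
  intro hU d n G hd hn hG m hm ε hε
  have hAC : IsAlgClosure ℚ (AlgebraicClosure ℚ) := isAlgClosure_rat
  obtain ⟨-, hMI⟩ := h2 n G hn hG
  obtain ⟨hm1, hmn, hmg⟩ := hMI m hm
  have hNd : 2 ≤ n * d := by nlinarith
  obtain ⟨c, hc, hcb⟩ := h5 hU (n * d) m hNd hm1 ε hε
  obtain ⟨C, hC⟩ := h6 (n * d)
  refine ⟨((C : ℝ) + 1) * c, by positivity, fun X hX => ?_⟩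
  let f : (Σ K : IntermediateField ℚ (AlgebraicClosure ℚ),
      IntermediateField K (AlgebraicClosure ℚ)) → IntermediateField ℚ (AlgebraicClosure ℚ) :=
    fun p => p.2.restrictScalars ℚ
  have hS : ∀ M ∈ f '' towers d n G X, Module.finrank ℚ M = n * d ∧
      (∃ _ : NumberField M, ((discr M).natAbs : ℝ) ≤ X) ∧
      ∀ H : Subgroup (Equiv.Perm (Fin (n * d))),
        HasGroup ℚ (AlgebraicClosure ℚ) (n * d) H M → ∀ h ∈ H, h ≠ 1 → m ≤ ind h := by
    rintro M ⟨⟨K, L⟩, ⟨hp1, hp2, hp3, hp4⟩, rfl⟩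
    dsimp only at hp1 hp2 hp3 hp4
    have hfd : FiniteDimensional ℚ K := FiniteDimensional.of_finrank_pos (by omega)
    have hKN : NumberField K := NumberField.mk
    have hr : Module.finrank ℚ (L.restrictScalars ℚ) = n * d := by
      have h := Module.finrank_mul_finrank ℚ K L
      rw [hp1, hp2.1] at h
      have h' : Module.finrank ℚ (L.restrictScalars ℚ) = Module.finrank ℚ L := rfl
      rw [h', ← h, mul_comm]
    refine ⟨hr, ?_, ?_⟩
    · let e : L ≃+* (L.restrictScalars ℚ) := RingEquiv.refl _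
      have hMN : NumberField (L.restrictScalars ℚ) := NumberField.of_ringEquiv L _ e
      refine ⟨hMN, ?_⟩
      have : discr (L.restrictScalars ℚ) = discr L :=
        (NumberField.discr_eq_discr_of_ringEquiv L e).symm
      change ((discr (L.restrictScalars ℚ)).natAbs : ℝ) ≤ X
      rw [this]
      exact hp4
    · intro H hH
      have halg : Algebra.IsAlgebraic K (AlgebraicClosure ℚ) :=
        Algebra.IsAlgebraic.tower_top (K := ℚ) K
      have hKC : IsAlgClosure K (AlgebraicClosure ℚ) := ⟨inferInstance, halg⟩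
      exact h1 K (AlgebraicClosure ℚ) n (n * d) m G H L hp2 hH hmn hmg
  have hAB := h4 (n * d) m (AlgebraicClosure ℚ) (by omega) (f '' towers d n G X) X hS
  obtain ⟨hfin, hcard⟩ := ncard_le_of_fibres (towers d n G X) f (fun p => p.1)
    (by
      rintro ⟨K, L⟩ - ⟨K', L'⟩ - h
      simp only [Prod.mk.injEq, f] at h
      obtain ⟨h1, h2⟩ := h
      subst h2
      rw [IntermediateField.restrictScalars_injective ℚ h1])
    hAB.1 C (fun M => {K : IntermediateField ℚ (AlgebraicClosure ℚ) | K ≤ M})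
    (fun M hM => hC (AlgebraicClosure ℚ) M (hS M hM).1 (by omega))
    (by
      rintro ⟨K, L⟩ -
      intro x hx
      exact L.algebraMap_mem ⟨x, hx⟩)
  refine ⟨hfin, ?_⟩
  have hb := hcb X hX
  have h7 : ((towers d n G X).ncard : ℝ) ≤ (C : ℝ) * ((f '' towers d n G X).ncard : ℝ) := by
    exact_mod_cast hcard
  have h8 : ((f '' towers d n G X).ncard : ℝ) ≤
      ((∑ H ∈ bigInd (n * d) m, Pool.Agent.W670.ML.N ℚ (n * d) H X : ℕ) : ℝ) := by
    exact_mod_cast hAB.2
  have h9 := h8.trans hb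
  have h10 : (0 : ℝ) ≤ c * X ^ ((1 : ℝ) / (m : ℝ) + ε) := by positivity
  calc ((towers d n G X).ncard : ℝ) ≤ (C : ℝ) * ((f '' towers d n G X).ncard : ℝ) := h7
    _ ≤ (C : ℝ) * (c * X ^ ((1 : ℝ) / (m : ℝ) + ε)) := by gcongr
    _ ≤ ((C : ℝ) + 1) * (c * X ^ ((1 : ℝ) / (m : ℝ) + ε)) := by nlinarith
    _ = ((C : ℝ) + 1) * c * X ^ ((1 : ℝ) / (m : ℝ) + ε) := by ring

end Pool.Agent.W644.ML
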